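import Pool.Agent.Helper19.TGX.Goals
import Pool.Agent.Helper35.TG.RGEN
import Pool.Agent.Helper66.TG.EMB
import Pool.Agent.Helper17.TG.DEC
import Pool.Agent.Helper45.TG.IPN

/-!
# Project TGX (MP_a41896_nt), packet GFE: even natural maps on the generic points are constant
-/

set_option autoImplicit false

open Polynomial

namespace Pool.Agent.Helper88.TGX.GFE

open WeierstrassCurve
open Pool.Agent.Helper29.BL Pool.Agent.Helper42.SG
open Pool.Agent.Helper60.T3 (WL IP)
open Pool.Agent.Helper92.TG (mp)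
open Pool.Agent.Helper19.TGX (wr hf GMap GEven CRP BPF PTS MPX)
open Pool.Agent.Helper35.TG.RGEN (ps_sq xc_neg ps_neg xc_mp ps_mp exists_pt alg_x bp_aeval bp_ne)

noncomputable section

/-- If the Wronskian of two coprime polynomials is zero then they are constant. -/
theorem wr_zero {k : Type} [Field k] [CharZero k] {A B : k[X]} (hc : IsCoprime A B) (hB : B ≠ 0)
    (h : wr A B = 0) : ∃ a b : k, b ≠ 0 ∧ A = C a ∧ B = C b := by
  unfold wr at h
  have h1 : B ∣ A * derivative B := ⟨derivative A, by linear_combination -h⟩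
  have h2 : B ∣ derivative B := hc.symm.dvd_of_dvd_mul_left h1
  have h3 : derivative B = 0 := by
    by_contra h3
    exact absurd (Polynomial.degree_le_of_dvd h2 h3)
      (not_le.mpr (Polynomial.degree_derivative_lt hB))
  have h4 : derivative A = 0 := by
    rw [h3, mul_zero, sub_zero] at h
    exact (mul_eq_zero.mp h).resolve_right hB
  have h5 := Polynomial.eq_C_of_natDegree_eq_zero
    (Polynomial.natDegree_eq_zero_of_derivative_eq_zero h3)
  have h6 := Polynomial.eq_C_of_natDegree_eq_zero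
    (Polynomial.natDegree_eq_zero_of_derivative_eq_zero h4)
  refine ⟨A.coeff 0, B.coeff 0, fun h0 => hB ?_, h6, h5⟩
  rw [h5, h0, map_zero]

/-- The image of the image of a point over `k`. -/
theorem mp_ofId {k : Type} [Field k] [DecidableEq k] {W : Affine k} {F F' : Type} [Field F]
    [DecidableEq F] [Algebra k F] [Field F'] [DecidableEq F'] [Algebra k F'] (j : F →ₐ[k] F')
    (t : (WL k W).Point) : mp j (mp (Algebra.ofId k F) t) = mp (Algebra.ofId k F') t := by
  rcases t with _ | ⟨x, y, h⟩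
  · rfl
  · have h1 : mp j (mp (Algebra.ofId k F) (Affine.Point.some x y h)) =
        mp (j.comp (Algebra.ofId k F)) (Affine.Point.some x y h) := rfl
    rw [h1]
    exact congrArg (fun f => mp f (Affine.Point.some x y h)) (Subsingleton.elim _ _)

theorem t (hCR : CRP) (hBP : BPF) (hM : MPX) : Pool.Agent.Helper19.TGX.GFE := by
  classical
  intro k _ _ _ _ W W' hW hW' g hg
  obtain ⟨P₀, hP₀, hx₀⟩ := exists_pt (W := W)
    (algebraMap (RatFunc k) (AlgebraicClosure (RatFunc k)) RatFunc.X)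
  have hT : Transcendental k (xc P₀) := by
    rw [hx₀]
    exact (transcendental_algebraMap_iff
      (algebraMap (RatFunc k) (AlgebraicClosure (RatFunc k))).injective).mpr
      RatFunc.transcendental_X
  have hal : ∀ z : AlgebraicClosure (RatFunc k),
      IsAlgebraic (IntermediateField.adjoin k ({xc P₀} : Set (AlgebraicClosure (RatFunc k)))) z := by
    rw [hx₀]
    exact alg_x k
  have hψ2 : ps P₀ ^ 2 = aeval (xc P₀) (Pool.Agent.Helper35.TG.RGEN.bp W) := by
    rw [bp_aeval, ps_sq P₀ hP₀]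
  have hψ : ps P₀ ≠ 0 := by
    intro h
    rw [h] at hψ2
    exact hT ⟨Pool.Agent.Helper35.TG.RGEN.bp W, bp_ne, by rw [← hψ2]; ring⟩
  obtain ⟨σ, hσ⟩ := Pool.Agent.Helper66.TG.EMB.t k W hW _ _ P₀ (-P₀) hT (by rwa [xc_neg]) hal
  have s1 : σ (xc P₀) = xc P₀ := by rw [← xc_mp, hσ, xc_neg]
  have s2 : σ (ps P₀) = -ps P₀ := by rw [← ps_mp, hσ, ps_neg]
  have s3 : mp σ (g.f _ P₀) = g.f _ P₀ := by
    rw [← g.nat _ _ σ P₀ hT, hσ]
    exact hg _ P₀ hT
  have s4 : σ (xc (g.f _ P₀)) = xc (g.f _ P₀) := by rw [← xc_mp, s3]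
  have s5 : σ (ps (g.f _ P₀)) = ps (g.f _ P₀) := by rw [← ps_mp, s3]
  have gen : ∀ (F : Type) [Field F] [DecidableEq F] [Algebra k F] (P : (WL F W).Point),
      Transcendental k (xc P) → ∃ (i : F →ₐ[k] AlgebraicClosure F)
        (j : AlgebraicClosure (RatFunc k) →ₐ[k] AlgebraicClosure F), mp i P = mp j P₀ := by
    intro F _ _ _ P hP
    let i : F →ₐ[k] AlgebraicClosure F := IsScalarTower.toAlgHom k F (AlgebraicClosure F)
    have h1 : Transcendental k (xc (mp i P)) := by
      rw [xc_mp]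
      exact (transcendental_algebraMap_iff (R := k) (S := F) (A := AlgebraicClosure F)
        (algebraMap F (AlgebraicClosure F)).injective).mpr hP
    obtain ⟨j, hj⟩ := Pool.Agent.Helper66.TG.EMB.t k W hW _ _ P₀ (mp i P) hT h1 hal
    exact ⟨i, j, hj.symm⟩
  suffices hs : ∃ t : (WL k W').Point,
      g.f _ P₀ = mp (Algebra.ofId k (AlgebraicClosure (RatFunc k))) t by
    obtain ⟨t, ht⟩ := hs
    refine ⟨t, ?_⟩
    intro F _ _ _ P hP
    obtain ⟨i, j, hij⟩ := gen F P hP
    have e1 : g.f _ (mp i P) = mp i (g.f F P) := g.nat _ _ i P hP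
    have e2 : g.f _ (mp j P₀) = mp j (g.f _ P₀) := g.nat _ _ j P₀ hT
    have e3 : mp i (g.f F P) = mp j (mp (Algebra.ofId k (AlgebraicClosure (RatFunc k))) t) := by
      rw [← e1, hij, e2, ht]
    have e4 : mp j (mp (Algebra.ofId k (AlgebraicClosure (RatFunc k))) t) =
        mp (Algebra.ofId k (AlgebraicClosure F)) t :=
      mp_ofId j t
    have e5 : mp i (mp (Algebra.ofId k F) t) = mp (Algebra.ofId k (AlgebraicClosure F)) t :=
      mp_ofId i t
    exact Affine.Point.map_injective i (e3.trans (e4.trans e5.symm))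
  by_cases h0 : g.f _ P₀ = 0
  · exact ⟨0, h0.trans rfl⟩
  · have hG : IP ((IntermediateField.adjoin k ({xc P₀, ps P₀} :
        Set (AlgebraicClosure (RatFunc k)))) : Set (AlgebraicClosure (RatFunc k))) P₀ :=
      Or.inr ⟨IntermediateField.subset_adjoin _ _ (Set.mem_insert _ _),
        IntermediateField.subset_adjoin _ _ (Set.mem_insert_of_mem _ rfl)⟩
    obtain ⟨Q, hQ⟩ := Pool.Agent.Helper45.TG.IPN.exists_map (W := W) _ hG
    have hQT : Transcendental k (xc Q) := by
      intro h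
      apply hT
      rw [← hQ, xc_mp]
      exact h.algHom _
    have hIP : IP ((IntermediateField.adjoin k ({xc P₀, ps P₀} :
        Set (AlgebraicClosure (RatFunc k)))) : Set (AlgebraicClosure (RatFunc k)))
        (g.f _ P₀) := by
      have e : g.f _ P₀ = mp (IntermediateField.adjoin k ({xc P₀, ps P₀} :
          Set (AlgebraicClosure (RatFunc k)))).val (g.f _ Q) := by
        refine Eq.trans ?_ (g.nat _ _ _ Q hQT)
        exact congrArg (g.f _) hQ.symm
      rw [e]
      exact Pool.Agent.Helper45.TG.IPN.ip_map _ _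
    rcases hIP with h | ⟨g1, g2⟩
    · exact absurd h h0
    obtain ⟨d1, -⟩ := Pool.Agent.Helper17.TG.DEC.t k _ (xc P₀) (ps P₀) (xc (g.f _ P₀))
      (Pool.Agent.Helper35.TG.RGEN.bp W) σ hT hψ hψ2 s1 s2 g1
    obtain ⟨d2, -⟩ := Pool.Agent.Helper17.TG.DEC.t k _ (xc P₀) (ps P₀) (ps (g.f _ P₀))
      (Pool.Agent.Helper35.TG.RGEN.bp W) σ hT hψ hψ2 s1 s2 g2
    obtain ⟨A, B, hAB, hB, d3⟩ := d1 s4
    obtain ⟨C', E', -, hE0, d4⟩ := d2 s5
    obtain ⟨-, -, -, -, b1, b2, -⟩ := hBP k W' hW'
    have hps := ps_sq (g.f _ P₀) h0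
    have hid : E' ^ 2 * hf W' A B = C' ^ 2 * 1 * B ^ 3 := by
      have h1 := b2 _ (xc P₀) (xc (g.f _ P₀)) A B d3
      have h2 : aeval (xc P₀) (E' ^ 2 * hf W' A B - C' ^ 2 * 1 * B ^ 3) = 0 := by
        rw [map_sub, map_mul, map_mul, map_mul, map_one, map_pow, map_pow, map_pow, h1, ← hps,
          ← d4]
        ring
      exact sub_eq_zero.mp ((transcendental_iff.mp hT) _ h2)
    obtain ⟨N, hN, hN'⟩ := hCR k W' hW' A B C' E' 1 hAB hB hE0 squarefree_one hid
    have hN0 : N = 0 := by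
      by_contra h
      have := hN' h
      rw [natDegree_one] at this
      omega
    have hw : wr A B = 0 := by
      rw [hN0, zero_mul] at hN
      exact (mul_eq_zero.mp hN).resolve_right hE0
    obtain ⟨a, b, hb, hA1, hB1⟩ := wr_zero hAB hB hw
    have hbF : algebraMap k (AlgebraicClosure (RatFunc k)) b ≠ 0 := by
      rw [Ne, FaithfulSMul.algebraMap_eq_zero_iff]
      exact hb
    have hx : algebraMap k (AlgebraicClosure (RatFunc k)) (a / b) = xc (g.f _ P₀) := by
      rw [hA1, hB1, aeval_C, aeval_C] at d3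
      rw [map_div₀, div_eq_iff hbF]
      exact d3.symm
    have hy : ps (g.f _ P₀) ^ 2 = algebraMap k (AlgebraicClosure (RatFunc k))
        (eval (a / b) (Pool.Agent.Helper19.TGX.bp W')) := by
      rw [hps, ← hx, ← b1, aeval_algebraMap_apply_eq_algebraMap_eval]
    obtain ⟨s, hs⟩ := IsAlgClosed.exists_pow_nat_eq
      (eval (a / b) (Pool.Agent.Helper19.TGX.bp W')) (n := 2) (by norm_num)
    have hz : (ps (g.f _ P₀) - algebraMap k (AlgebraicClosure (RatFunc k)) s) *
        (ps (g.f _ P₀) + algebraMap k (AlgebraicClosure (RatFunc k)) s) = 0 := by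
      have : ps (g.f _ P₀) ^ 2 = (algebraMap k (AlgebraicClosure (RatFunc k)) s) ^ 2 := by
        rw [hy, ← hs, map_pow]
      linear_combination this
    have hr : ps (g.f _ P₀) ∈ Set.range (Algebra.ofId k (AlgebraicClosure (RatFunc k))) := by
      rcases mul_eq_zero.mp hz with h | h
      · exact ⟨s, (sub_eq_zero.mp h).symm⟩
      · refine ⟨-s, ?_⟩
        rw [map_neg]
        exact (eq_neg_of_add_eq_zero_left h).symm
    obtain ⟨t, ht⟩ := (hM k W' k _ (Algebra.ofId k (AlgebraicClosure (RatFunc k))) 0).2.2.2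
      (g.f _ P₀) (Or.inr ⟨⟨a / b, hx⟩, hr⟩)
    exact ⟨t, ht.symm⟩

end

end Pool.Agent.Helper88.TGX.GFE
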